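import Pool.Agent.MP_67b169_lc.Mg.Model

namespace Pool.Agent.Results.MP_67b169_lc.NoImplication

open Pool.Agent.Lib.SymForcing Pool.Agent.MP_67b169_lc

theorem result : ∃ (M : Type 1) (E : M → M → Prop),
    ZF E ∧ CMC E ∧ SentK E ∧ ¬ SentFU E :=
  main

end Pool.Agent.Results.MP_67b169_lc.NoImplication
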